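import Pool.Agent.W851.FC.Final

/-!
# Q1 has a negative answer: the golden mean chain of maximal entropy

The stationary Markov chain on two states `false`, `true` which moves from `true` to `false` with
probability `1`, and from `false` to `true` with probability `g ^ (-2)` and to `false` with
probability `g ^ (-1)` (`g` the golden ratio), is irreducible, aperiodic and has exponential return
times.  Its entropy is `log g`.  No i.i.d. process of the same entropy has a finitary factor map
onto it whose coding window has exponential tails.

Idea: every cylinder of length `n` of the chain has measure `O(g ^ (-n))`.  A coding window with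
exponential tails transports this bound to the i.i.d. process with marginal `ν`: the product
`∏ ν{y_i} g` over `n` coordinates has a bounded moment of some order `θ > 0`, uniformly in `n`.  By
independence `E (ν{y_0} g) ^ θ ≤ 1`, and since the entropies agree Jensen's inequality forces
`ν{y_0} = 1 / g` almost surely, so that `g` would be an integer.
-/

set_option autoImplicit false

open MeasureTheory
open Pool.Agent.Helper179.KS Pool.Agent.W851.FC

namespace Pool.Agent.Results.MP_207c40_pr.GoldenMeanNoCoding

theorem result : ∃ (p : Bool → Bool → ℝ) (μ : Measure (ℤ → Bool)),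
    IsStationaryChain p μ ∧ IsErgodicChain μ ∧ ExpReturnTimes μ ∧
    ksEntropy μ shift = ((Real.log Real.goldenRatio : ℝ) : EReal) ∧
    ∀ (A : Type) [MeasurableSpace A] [StandardBorelSpace A] (ν : Measure A)
      [IsProbabilityMeasure ν], ksEntropy (iid ν) shift = ksEntropy μ shift →
      ∀ (φ : (ℤ → A) → (ℤ → Bool)) (R : (ℤ → A) → ℕ),
        IsFactorMap ν μ φ → IsCodingWindow ν φ R → ¬ ExpTails ν R :=
  ⟨gp, gmu, gmu_chain, gmu_ergodic, gmu_return, le_antisymm gmu_ks_le gmu_ks_ge,
    fun _ _ _ ν _ hent _ _ hφ hR => no_coding ν hent.le hφ hR⟩

end Pool.Agent.Results.MP_207c40_pr.GoldenMeanNoCoding
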